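import Mathlib

set_option autoImplicit false

namespace Pool.Agent.Results.MP_10f644_co.Lower

open Finset

/-- `F` is a family of cliques of `G`, each on at least two vertices. -/
def Cliques {n : ℕ} (G : SimpleGraph (Fin n)) (F : Finset (Finset (Fin n))) : Prop :=
  ∀ Q ∈ F, 2 ≤ Q.card ∧ G.IsClique (Q : Set (Fin n))

/-- edge clique cover number -/
noncomputable def cc {n : ℕ} (G : SimpleGraph (Fin n)) : ℕ :=
  sInf {k | ∃ F : Finset (Finset (Fin n)), F.card = k ∧ Cliques G F ∧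
    ∀ u v, G.Adj u v → ∃ Q ∈ F, u ∈ Q ∧ v ∈ Q}

/-- clique partition number -/
noncomputable def cp {n : ℕ} (G : SimpleGraph (Fin n)) : ℕ :=
  sInf {k | ∃ F : Finset (Finset (Fin n)), F.card = k ∧ Cliques G F ∧
    ∀ u v, G.Adj u v → ∃! Q, Q ∈ F ∧ u ∈ Q ∧ v ∈ Q}

def ty {m : ℕ} (v : Fin (7 * m)) : Fin 7 := (finProdFinEquiv.symm v).1

def A (i j : Fin 7) : Prop := i.val < 3 ∨ j.val < 3 ∨ i = j

instance (i j : Fin 7) : Decidable (A i j) := by unfold A; infer_instance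

def Gr (m : ℕ) : SimpleGraph (Fin (7 * m)) where
  Adj u v := u ≠ v ∧ A (ty u) (ty v)
  symm := ⟨by
    rintro u v ⟨h, h2⟩
    refine ⟨h.symm, ?_⟩
    unfold A at *
    rcases h2 with h | h | h
    · exact Or.inr (Or.inl h)
    · exact Or.inl h
    · exact Or.inr (Or.inr h.symm)⟩
  loopless := ⟨fun u h => h.1 rfl⟩

def c (i : Fin 7) : ℤ := if i.val < 3 then 1 else 0
def p (i : Fin 7) : ℤ := if i.val < 3 then 0 else 1
def y (i j : Fin 7) : ℤ := c i * p j + p i * c j - 2 * (p i * p j) - c i * c j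
def Y (i j : Fin 7) : ℤ := if A i j then y i j else 0

theorem sum_ty (m : ℕ) (g : Fin 7 → ℤ) : ∑ v : Fin (7 * m), g (ty v) = m * ∑ i, g i := by
  have := Equiv.sum_comp (finProdFinEquiv (m := 7) (n := m)).symm (fun x => g x.1)
  unfold ty
  rw [this, Fintype.sum_prod_type, Finset.mul_sum]
  simp

theorem tot (m : ℕ) : ∑ u : Fin (7 * m), ∑ v : Fin (7 * m),
    (if u = v then 0 else Y (ty u) (ty v)) = 7 * (m : ℤ) ^ 2 + 11 * m := by
  have h1 : ∀ u : Fin (7 * m), ∑ v : Fin (7 * m), (if u = v then 0 else Y (ty u) (ty v))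
      = (m * ∑ j, Y (ty u) j) - Y (ty u) (ty u) := by
    intro u
    rw [← sum_ty m (fun j => Y (ty u) j)]
    have : ∀ v : Fin (7 * m), (if u = v then 0 else Y (ty u) (ty v))
        = Y (ty u) (ty v) - (if u = v then Y (ty u) (ty v) else 0) := by
      intro v; split_ifs <;> simp
    simp only [this, Finset.sum_sub_distrib, Finset.sum_ite_eq, Finset.mem_univ, if_true]
  simp only [h1]
  rw [sum_ty m (fun i => (m * ∑ j, Y i j) - Y i i), Finset.sum_sub_distrib, ← Finset.mul_sum]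
  have a1 : ∑ i, ∑ j, Y i j = 7 := by decide
  have a2 : ∑ i, Y i i = -11 := by decide
  rw [a1, a2]; ring

theorem one {m : ℕ} (Q : Finset (Fin (7 * m))) :
    ∑ u ∈ Q, ∑ v ∈ Q, (if u = v then 0 else y (ty u) (ty v)) ≤ 2 := by
  have h1 : ∀ u ∈ Q, ∑ v ∈ Q, (if u = v then 0 else y (ty u) (ty v))
      = (∑ v ∈ Q, y (ty u) (ty v)) + (2 * p (ty u) + c (ty u)) := by
    intro u hu
    have : ∀ v : Fin (7 * m), (if u = v then 0 else y (ty u) (ty v))
        = y (ty u) (ty v) - (if u = v then y (ty u) (ty v) else 0) := by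
      intro v; split_ifs <;> simp
    simp only [this, Finset.sum_sub_distrib, Finset.sum_ite_eq, hu, if_true]
    have : ∀ i, y i i = -(2 * p i + c i) := by decide
    rw [this]; ring
  rw [Finset.sum_congr rfl h1]
  set x := ∑ u ∈ Q, p (ty u) with hx
  set z := ∑ u ∈ Q, c (ty u) with hz
  have h2 : ∀ u : Fin (7 * m), ∑ v ∈ Q, y (ty u) (ty v)
      = c (ty u) * x + p (ty u) * z - 2 * (p (ty u) * x) - c (ty u) * z := by
    intro u
    simp only [y, Finset.sum_sub_distrib, Finset.sum_add_distrib, ← Finset.mul_sum, hx, hz]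
  simp only [h2, Finset.sum_sub_distrib, Finset.sum_add_distrib, ← Finset.mul_sum,
    ← Finset.sum_mul, ← hx, ← hz]
  have e1 : 0 ≤ (z - x) * (z - x - 1) := by
    rcases le_or_gt (z - x) 0 with h | h
    · exact mul_nonneg_of_nonpos_of_nonpos h (by omega)
    · exact mul_nonneg h.le (by omega)
  have e2 : 0 ≤ (x - 1) * (x - 2) := by
    rcases le_or_gt x 1 with h | h
    · exact mul_nonneg_of_nonpos_of_nonpos (by omega) (by omega)
    · exact mul_nonneg (by omega) (by omega)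
  nlinarith

theorem lower (m : ℕ) (F : Finset (Finset (Fin (7 * m)))) (hF : Cliques (Gr m) F)
    (hu : ∀ u v, (Gr m).Adj u v → ∃! Q, Q ∈ F ∧ u ∈ Q ∧ v ∈ Q) :
    7 * (m : ℤ) ^ 2 + 11 * m ≤ 2 * F.card := by
  rw [← tot]
  have key : ∀ u v : Fin (7 * m), (if u = v then 0 else Y (ty u) (ty v))
      = ∑ Q ∈ F, (if u ∈ Q then (if v ∈ Q then (if u = v then 0 else y (ty u) (ty v)) else 0)
        else 0) := by
    intro u v
    by_cases h : u = v
    · simp [h]
    by_cases ha : A (ty u) (ty v)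
    · obtain ⟨Q, ⟨hQ, h1, h2⟩, hq⟩ := hu u v ⟨h, ha⟩
      rw [Finset.sum_eq_single_of_mem Q hQ]
      · simp [h, h1, h2, Y, ha]
      · intro R hR hne
        by_cases r1 : u ∈ R
        · by_cases r2 : v ∈ R
          · exact absurd (hq R ⟨hR, r1, r2⟩) hne
          · simp [r2]
        · simp [r1]
    · rw [Finset.sum_eq_zero]
      · simp [Y, ha]
      · intro R hR
        by_cases r1 : u ∈ R
        · by_cases r2 : v ∈ R
          · exact absurd ((hF R hR).2 r1 r2 h).2 ha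
          · simp [r2]
        · simp [r1]
  simp only [key]
  have : ∀ u : Fin (7 * m), ∑ v : Fin (7 * m), ∑ Q ∈ F,
      (if u ∈ Q then (if v ∈ Q then (if u = v then 0 else y (ty u) (ty v)) else 0) else 0)
      = ∑ Q ∈ F, (if u ∈ Q then ∑ v ∈ Q, (if u = v then 0 else y (ty u) (ty v)) else 0) := by
    intro u
    rw [Finset.sum_comm]
    refine Finset.sum_congr rfl fun Q _ => ?_
    by_cases h : u ∈ Q
    · simp only [h, if_true]
      rw [Finset.sum_ite_mem, Finset.univ_inter]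
    · simp [h]
  simp only [this]
  rw [Finset.sum_comm]
  calc _ ≤ ∑ _Q ∈ F, (2 : ℤ) := by
        refine Finset.sum_le_sum fun Q _ => ?_
        rw [Finset.sum_ite_mem, Finset.univ_inter]
        exact one Q
    _ = _ := by simp [mul_comm]

theorem part_ex {n : ℕ} (G : SimpleGraph (Fin n)) :
    ∃ F : Finset (Finset (Fin n)), Cliques G F ∧
      ∀ u v, G.Adj u v → ∃! Q, Q ∈ F ∧ u ∈ Q ∧ v ∈ Q := by
  classical
  refine ⟨Finset.univ.filter (fun Q => Q.card = 2 ∧ G.IsClique (Q : Set (Fin n))), ?_, ?_⟩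
  · intro Q hQ
    simp only [Finset.mem_filter, Finset.mem_univ, true_and] at hQ
    exact ⟨hQ.1.ge, hQ.2⟩
  · intro u v h
    refine ⟨{u, v}, ⟨?_, by simp, by simp⟩, ?_⟩
    · simp only [Finset.mem_filter, Finset.mem_univ, true_and]
      refine ⟨Finset.card_pair h.ne, ?_⟩
      rw [Finset.coe_pair, SimpleGraph.isClique_pair]
      exact fun _ => h
    · rintro Q ⟨hQ, h1, h2⟩
      simp only [Finset.mem_filter, Finset.mem_univ, true_and] at hQ
      symm
      apply Finset.eq_of_subset_of_card_le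
      · intro w hw
        simp only [Finset.mem_insert, Finset.mem_singleton] at hw
        rcases hw with rfl | rfl <;> assumption
      · rw [hQ.1, Finset.card_pair h.ne]

def vx (m : ℕ) (i : Fin 7) : Fin (7 * (m + 1)) := finProdFinEquiv (i, 0)

theorem ty_vx (m : ℕ) (i : Fin 7) : ty (vx m i) = i := by simp [ty, vx]

theorem adj01 (m : ℕ) : (Gr (m + 1)).Adj (vx m 0) (vx m 1) := by
  refine ⟨fun h => ?_, ?_⟩
  · have := congrArg ty h
    rw [ty_vx, ty_vx] at this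
    exact absurd this (by decide)
  · rw [ty_vx, ty_vx]; decide

theorem cover (m : ℕ) : ∃ F : Finset (Finset (Fin (7 * (m + 1)))), F.card ≤ 4 ∧
    Cliques (Gr (m + 1)) F ∧ ∀ u v, (Gr (m + 1)).Adj u v → ∃ Q ∈ F, u ∈ Q ∧ v ∈ Q := by
  refine ⟨(({3, 4, 5, 6} : Finset (Fin 7))).image
    (fun i => Finset.univ.filter (fun v => (ty v).val < 3 ∨ ty v = i)), ?_, ?_, ?_⟩
  · exact Finset.card_image_le.trans (by decide)
  · intro Q hQ
    obtain ⟨i, -, rfl⟩ := Finset.mem_image.1 hQ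
    refine ⟨?_, ?_⟩
    · have : ({vx m 0, vx m 1} : Finset _) ⊆
          Finset.univ.filter (fun v => (ty v).val < 3 ∨ ty v = i) := by
        intro w hw
        simp only [Finset.mem_insert, Finset.mem_singleton] at hw
        rcases hw with rfl | rfl <;> simp [ty_vx]
      have h2 := Finset.card_le_card this
      rwa [Finset.card_pair (adj01 m).ne] at h2
    · intro u hu v hv h
      simp only [Finset.coe_filter, Finset.mem_univ, true_and, Set.mem_ofPred_eq] at hu hv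
      refine ⟨h, ?_⟩
      unfold A
      rcases hu with hu | hu
      · exact Or.inl hu
      rcases hv with hv | hv
      · exact Or.inr (Or.inl hv)
      · exact Or.inr (Or.inr (hu.trans hv.symm))
  · intro u v h
    have : ∀ a b : Fin 7, A a b → ∃ i ∈ ({3, 4, 5, 6} : Finset (Fin 7)),
        (a.val < 3 ∨ a = i) ∧ (b.val < 3 ∨ b = i) := by decide
    obtain ⟨i, hi, h1, h2⟩ := this _ _ h.2
    exact ⟨_, Finset.mem_image_of_mem _ hi, by simpa using h1, by simpa using h2⟩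

theorem result (N : ℕ) : ∃ n ≥ N, ∃ G : SimpleGraph (Fin n), (∃ u v, G.Adj u v) ∧
    (1 / 56 : ℝ) * (n : ℝ) ^ 2 < (cp G : ℝ) / (cc G : ℝ) := by
  refine ⟨7 * (N + 1), by omega, Gr (N + 1), ⟨_, _, adj01 N⟩, ?_⟩
  obtain ⟨F, hF4, hF, hc⟩ := cover N
  have c4 : cc (Gr (N + 1)) ≤ 4 := le_trans (Nat.sInf_le (by exact ⟨F, rfl, hF, hc⟩)) hF4
  have c1 : 0 < cc (Gr (N + 1)) := by
    have hm := Nat.sInf_mem (s := {k | ∃ F : Finset (Finset (Fin (7 * (N + 1)))), F.card = k ∧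
      Cliques (Gr (N + 1)) F ∧ ∀ u v, (Gr (N + 1)).Adj u v → ∃ Q ∈ F, u ∈ Q ∧ v ∈ Q})
      ⟨_, F, rfl, hF, hc⟩
    obtain ⟨F', h1, -, h3⟩ := hm
    obtain ⟨Q, hQ, -⟩ := h3 _ _ (adj01 N)
    unfold cc
    rw [← h1]
    exact Finset.card_pos.2 ⟨Q, hQ⟩
  obtain ⟨P, hP, hp⟩ := part_ex (Gr (N + 1))
  have hm := Nat.sInf_mem (s := {k | ∃ F : Finset (Finset (Fin (7 * (N + 1)))), F.card = k ∧
      Cliques (Gr (N + 1)) F ∧ ∀ u v, (Gr (N + 1)).Adj u v → ∃! Q, Q ∈ F ∧ u ∈ Q ∧ v ∈ Q})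
      ⟨_, P, rfl, hP, hp⟩
  obtain ⟨P', h1, h2, h3⟩ := hm
  have hl := lower (N + 1) P' h2 h3
  have e : P'.card = cp (Gr (N + 1)) := h1
  rw [e] at hl
  have hl' : 7 * ((N : ℝ) + 1) ^ 2 + 11 * ((N : ℝ) + 1) ≤ 2 * (cp (Gr (N + 1)) : ℝ) := by
    exact_mod_cast hl
  have c4' : (cc (Gr (N + 1)) : ℝ) ≤ 4 := by exact_mod_cast c4
  have c1' : (0 : ℝ) < cc (Gr (N + 1)) := by exact_mod_cast c1
  rw [lt_div_iff₀ c1']
  push_cast
  have hN : (0 : ℝ) ≤ N := Nat.cast_nonneg N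
  nlinarith [mul_le_mul_of_nonneg_left c4' (sq_nonneg ((N : ℝ) + 1))]

end Pool.Agent.Results.MP_10f644_co.Lower
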